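import Pool.Agent.helper62.VQ.SpecF

set_option autoImplicit false

open scoped MatrixGroups ContDiff Topology UpperHalfPlane
open UpperHalfPlane MeasureTheory Filter Set

namespace Pool.Agent.VQE

open Pool.Agent.RS

theorem PZE_smul (D : SL(2, ℝ)) (z : ℍ) : ((D • z : ℍ) : ℂ) =
    (((D.1 0 0 : ℝ) : ℂ) * z + ((D.1 0 1 : ℝ) : ℂ)) / (((D.1 1 0 : ℝ) : ℂ) * z + ((D.1 1 1 : ℝ) : ℂ)) := by
  rw [coe_specialLinearGroup_apply]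
  rfl

theorem PZE_det (D : SL(2, ℝ)) : D.1 0 0 * D.1 1 1 - D.1 0 1 * D.1 1 0 = 1 := by
  have := D.2
  rw [Matrix.det_fin_two] at this
  exact this

theorem PZE_den (D : SL(2, ℝ)) (z : ℍ) : ((D.1 1 0 : ℝ) : ℂ) * z + ((D.1 1 1 : ℝ) : ℂ) ≠ 0 := by
  intro h
  have h1 := congrArg Complex.im h
  have h2 := congrArg Complex.re h
  simp only [Complex.add_im, Complex.mul_im, Complex.ofReal_re, Complex.ofReal_im, zero_mul, add_zero, Complex.zero_im,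
    Complex.add_re, Complex.mul_re, Complex.zero_re, sub_zero] at h1 h2
  have hz : (z : ℂ).im ≠ 0 := z.im_pos.ne'
  have hc : D.1 1 0 = 0 := by
    rcases mul_eq_zero.mp h1 with h | h
    · exact h
    · exact absurd h hz
  have hd : D.1 1 1 = 0 := by
    rw [hc] at h2
    simpa using h2
  have := PZE_det D
  rw [hc, hd] at this
  simp at this

theorem PZE_zI (z : ℍ) : (z : ℂ) + Complex.I ≠ 0 := by
  intro h
  have h1 := congrArg Complex.im h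
  simp only [Complex.add_im, Complex.I_im, Complex.zero_im] at h1
  have : 0 < (z : ℂ).im := z.im_pos
  linarith

/-- `cd` of a quotient -/
theorem PZE_quot (z : ℍ) (p q : ℂ) (hq : q ≠ 0) (h : (z : ℂ) = p / q) :
    VQ.cd z = 2 * (p - Complex.I * q) / (p + Complex.I * q) ∧ p + Complex.I * q ≠ 0 := by
  have h1 := PZE_zI z
  have h2 : ((z : ℂ) + Complex.I) * q = p + Complex.I * q := by
    rw [h]
    field_simp
  have h3 : ((z : ℂ) - Complex.I) * q = p - Complex.I * q := by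
    rw [h]
    field_simp
  refine ⟨?_, ?_⟩
  · unfold VQ.cd
    rw [← h2, ← h3, ← mul_assoc, mul_div_mul_right _ _ hq]
  · rw [← h2]
    exact mul_ne_zero h1 hq

theorem PZE_one (D : SL(2, ℝ)) : VQ.cd (D • I) = ze (mt D) ∧
    ((mt D 0 1 - mt D 1 0 : ℝ) : ℂ) + ((mt D 0 0 + mt D 1 1 : ℝ) : ℂ) * Complex.I ≠ 0 := by
  have h := PZE_quot (D • I) _ _ (PZE_den D I) (PZE_smul D I)
  have hI : ((I : ℍ) : ℂ) = Complex.I := rfl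
  rw [hI] at h
  have e1 : ((D.1 0 0 : ℝ) : ℂ) * Complex.I + ((D.1 0 1 : ℝ) : ℂ) + Complex.I * (((D.1 1 0 : ℝ) : ℂ) * Complex.I +
      ((D.1 1 1 : ℝ) : ℂ)) = ((mt D 0 1 - mt D 1 0 : ℝ) : ℂ) + ((mt D 0 0 + mt D 1 1 : ℝ) : ℂ) * Complex.I := by
    unfold mt
    push_cast
    linear_combination ((D.1 1 0 : ℝ) : ℂ) * Complex.I_mul_I
  have e2 : ((D.1 0 0 : ℝ) : ℂ) * Complex.I + ((D.1 0 1 : ℝ) : ℂ) - Complex.I * (((D.1 1 0 : ℝ) : ℂ) * Complex.I +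
      ((D.1 1 1 : ℝ) : ℂ)) = ((mt D 0 1 + mt D 1 0 : ℝ) : ℂ) + ((mt D 0 0 - mt D 1 1 : ℝ) : ℂ) * Complex.I := by
    unfold mt
    push_cast
    linear_combination (-((D.1 1 0 : ℝ) : ℂ)) * Complex.I_mul_I
  rw [e1, e2] at h
  exact h

theorem PZE_cdi (z : ℍ) : VQ.cdi (VQ.cd z) = z := by
  have h1 := PZE_zI z
  unfold VQ.cdi
  have h2 : Complex.I * (2 + VQ.cd z) / (2 - VQ.cd z) = z := by
    have e1 : 2 + VQ.cd z = 4 * z / ((z : ℂ) + Complex.I) := by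
      unfold VQ.cd
      field_simp
      ring
    have e2 : 2 - VQ.cd z = 4 * Complex.I / ((z : ℂ) + Complex.I) := by
      unfold VQ.cd
      field_simp
      ring
    have hI := Complex.I_ne_zero
    rw [e1, e2]
    field_simp
  rw [h2]
  exact ofComplex_apply z

theorem PZE_im (v : ℂ) (hv : ‖v‖ < 2) : 0 < (Complex.I * (2 + v) / (2 - v)).im ∧ (2 : ℂ) - v ≠ 0 := by
  have h2v : (2 : ℂ) - v ≠ 0 := by
    intro h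
    have h1 : v = 2 := by linear_combination -h
    rw [h1] at hv
    simp at hv
  refine ⟨?_, h2v⟩
  have h3 : 0 < Complex.normSq (2 - v) := Complex.normSq_pos.mpr h2v
  have h4 : (Complex.I * (2 + v) / (2 - v)).im = (4 - (v.re ^ 2 + v.im ^ 2)) / Complex.normSq (2 - v) := by
    rw [Complex.div_im]
    simp only [Complex.mul_im, Complex.mul_re, Complex.I_re, Complex.I_im, Complex.add_re, Complex.add_im, Complex.sub_re,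
      Complex.sub_im, Complex.re_ofNat, Complex.im_ofNat]
    field_simp
    ring
  rw [h4]
  refine div_pos ?_ h3
  have h5 : v.re ^ 2 + v.im ^ 2 = ‖v‖ ^ 2 := by
    rw [← Complex.normSq_eq_norm_sq, Complex.normSq_apply]
    ring
  rw [h5]
  nlinarith [norm_nonneg v]

theorem PZE_coe (v : ℂ) (hv : ‖v‖ < 2) : ((VQ.cdi v : ℍ) : ℂ) = Complex.I * (2 + v) / (2 - v) := by
  unfold VQ.cdi
  exact ofComplex_apply_of_im_pos (PZE_im v hv).1 ▸ rfl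

/-- the action of `D` in the disc coordinate -/
noncomputable def PZE_m (D : SL(2, ℝ)) (v : ℂ) : ℂ :=
  2 * ((2 + v) * (((D.1 0 0 : ℝ) : ℂ) * Complex.I + ((D.1 1 0 : ℝ) : ℂ)) +
    (2 - v) * (((D.1 0 1 : ℝ) : ℂ) - ((D.1 1 1 : ℝ) : ℂ) * Complex.I)) /
  ((2 + v) * (((D.1 0 0 : ℝ) : ℂ) * Complex.I - ((D.1 1 0 : ℝ) : ℂ)) +
    (2 - v) * (((D.1 0 1 : ℝ) : ℂ) + ((D.1 1 1 : ℝ) : ℂ) * Complex.I))

theorem PZE_act (D : SL(2, ℝ)) (v : ℂ) (hv : ‖v‖ < 2) : VQ.cd (D • VQ.cdi v) = PZE_m D v := by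
  have h2v := (PZE_im v hv).2
  obtain ⟨h1, h2⟩ := PZE_quot (D • VQ.cdi v) _ _ (PZE_den D (VQ.cdi v)) (PZE_smul D (VQ.cdi v))
  rw [h1]
  have hw : ((VQ.cdi v : ℍ) : ℂ) * (2 - v) = Complex.I * (2 + v) := by
    rw [PZE_coe v hv]
    field_simp
  unfold PZE_m
  rw [← mul_div_mul_right _ _ h2v]
  have e1 : 2 * ((((D.1 0 0 : ℝ) : ℂ) * ((VQ.cdi v : ℍ) : ℂ) + ((D.1 0 1 : ℝ) : ℂ)) - Complex.I * (((D.1 1 0 : ℝ) : ℂ) *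
      ((VQ.cdi v : ℍ) : ℂ) + ((D.1 1 1 : ℝ) : ℂ))) * (2 - v) = 2 * ((2 + v) * (((D.1 0 0 : ℝ) : ℂ) * Complex.I + ((D.1 1 0 : ℝ) : ℂ)) +
    (2 - v) * (((D.1 0 1 : ℝ) : ℂ) - ((D.1 1 1 : ℝ) : ℂ) * Complex.I)) := by
    linear_combination (2 * ((D.1 0 0 : ℝ) : ℂ) - 2 * Complex.I * ((D.1 1 0 : ℝ) : ℂ)) * hw -
      (2 * ((D.1 1 0 : ℝ) : ℂ) * (2 + v)) * Complex.I_mul_I
  have e2 : ((((D.1 0 0 : ℝ) : ℂ) * ((VQ.cdi v : ℍ) : ℂ) + ((D.1 0 1 : ℝ) : ℂ)) + Complex.I * (((D.1 1 0 : ℝ) : ℂ) *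
      ((VQ.cdi v : ℍ) : ℂ) + ((D.1 1 1 : ℝ) : ℂ))) * (2 - v) = (2 + v) * (((D.1 0 0 : ℝ) : ℂ) * Complex.I - ((D.1 1 0 : ℝ) : ℂ)) +
    (2 - v) * (((D.1 0 1 : ℝ) : ℂ) + ((D.1 1 1 : ℝ) : ℂ) * Complex.I) := by
    linear_combination (((D.1 0 0 : ℝ) : ℂ) + Complex.I * ((D.1 1 0 : ℝ) : ℂ)) * hw +
      (((D.1 1 0 : ℝ) : ℂ) * (2 + v)) * Complex.I_mul_I
  rw [e1, e2]

theorem PZE_deriv (D : SL(2, ℝ)) : HasDerivAt (PZE_m D) (et (mt D)) 0 ∧ PZE_m D 0 = ze (mt D) := by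
  have hE := (PZE_one D).2
  have hdet : ((D.1 0 0 : ℝ) : ℂ) * ((D.1 1 1 : ℝ) : ℂ) - ((D.1 0 1 : ℝ) : ℂ) * ((D.1 1 0 : ℝ) : ℂ) = 1 := by
    exact_mod_cast PZE_det D
  unfold mt at hE
  push_cast at hE
  have hd0 : (2 + (0 : ℂ)) * (((D.1 0 0 : ℝ) : ℂ) * Complex.I - ((D.1 1 0 : ℝ) : ℂ)) +
    (2 - 0) * (((D.1 0 1 : ℝ) : ℂ) + ((D.1 1 1 : ℝ) : ℂ) * Complex.I) ≠ 0 := by
    intro h
    apply hE
    linear_combination (1 / 2) * h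
  have hE2 : (((D.1 0 1 : ℝ) : ℂ) - ((D.1 1 0 : ℝ) : ℂ) + (((D.1 0 0 : ℝ) : ℂ) + ((D.1 1 1 : ℝ) : ℂ)) * Complex.I) ≠ 0 := hE
  constructor
  · have h1 : HasDerivAt (fun v : ℂ => 2 * ((2 + v) * (((D.1 0 0 : ℝ) : ℂ) * Complex.I + ((D.1 1 0 : ℝ) : ℂ)) +
        (2 - v) * (((D.1 0 1 : ℝ) : ℂ) - ((D.1 1 1 : ℝ) : ℂ) * Complex.I)))
        (2 * (1 * (((D.1 0 0 : ℝ) : ℂ) * Complex.I + ((D.1 1 0 : ℝ) : ℂ)) +
        (-1) * (((D.1 0 1 : ℝ) : ℂ) - ((D.1 1 1 : ℝ) : ℂ) * Complex.I))) 0 :=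
      ((((hasDerivAt_id (0 : ℂ)).const_add 2).mul_const _).add (((hasDerivAt_id (0 : ℂ)).const_sub 2).mul_const _)).const_mul 2
    have h2 : HasDerivAt (fun v : ℂ => (2 + v) * (((D.1 0 0 : ℝ) : ℂ) * Complex.I - ((D.1 1 0 : ℝ) : ℂ)) +
        (2 - v) * (((D.1 0 1 : ℝ) : ℂ) + ((D.1 1 1 : ℝ) : ℂ) * Complex.I))
        (1 * (((D.1 0 0 : ℝ) : ℂ) * Complex.I - ((D.1 1 0 : ℝ) : ℂ)) +
        (-1) * (((D.1 0 1 : ℝ) : ℂ) + ((D.1 1 1 : ℝ) : ℂ) * Complex.I)) 0 :=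
      (((hasDerivAt_id (0 : ℂ)).const_add 2).mul_const _).add (((hasDerivAt_id (0 : ℂ)).const_sub 2).mul_const _)
    have h3 := h1.div h2 hd0
    have h4 : (2 * (1 * (((D.1 0 0 : ℝ) : ℂ) * Complex.I + ((D.1 1 0 : ℝ) : ℂ)) +
        (-1) * (((D.1 0 1 : ℝ) : ℂ) - ((D.1 1 1 : ℝ) : ℂ) * Complex.I)) *
        ((2 + (0 : ℂ)) * (((D.1 0 0 : ℝ) : ℂ) * Complex.I - ((D.1 1 0 : ℝ) : ℂ)) +
        (2 - 0) * (((D.1 0 1 : ℝ) : ℂ) + ((D.1 1 1 : ℝ) : ℂ) * Complex.I)) -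
        (2 * ((2 + (0 : ℂ)) * (((D.1 0 0 : ℝ) : ℂ) * Complex.I + ((D.1 1 0 : ℝ) : ℂ)) +
        (2 - 0) * (((D.1 0 1 : ℝ) : ℂ) - ((D.1 1 1 : ℝ) : ℂ) * Complex.I))) *
        (1 * (((D.1 0 0 : ℝ) : ℂ) * Complex.I - ((D.1 1 0 : ℝ) : ℂ)) +
        (-1) * (((D.1 0 1 : ℝ) : ℂ) + ((D.1 1 1 : ℝ) : ℂ) * Complex.I))) /
        ((2 + (0 : ℂ)) * (((D.1 0 0 : ℝ) : ℂ) * Complex.I - ((D.1 1 0 : ℝ) : ℂ)) +
        (2 - 0) * (((D.1 0 1 : ℝ) : ℂ) + ((D.1 1 1 : ℝ) : ℂ) * Complex.I)) ^ 2 = et (mt D) := by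
      unfold et mt
      push_cast
      rw [div_eq_div_iff (pow_ne_zero _ hd0) (pow_ne_zero _ hE2)]
      have hI2 := Complex.I_mul_I
      have e1 : (2 + (0 : ℂ)) * (((D.1 0 0 : ℝ) : ℂ) * Complex.I - ((D.1 1 0 : ℝ) : ℂ)) +
        (2 - 0) * (((D.1 0 1 : ℝ) : ℂ) + ((D.1 1 1 : ℝ) : ℂ) * Complex.I) =
          2 * (((D.1 0 1 : ℝ) : ℂ) - ((D.1 1 0 : ℝ) : ℂ) + (((D.1 0 0 : ℝ) : ℂ) + ((D.1 1 1 : ℝ) : ℂ)) * Complex.I) := by ring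
      have e2 : 2 * (1 * (((D.1 0 0 : ℝ) : ℂ) * Complex.I + ((D.1 1 0 : ℝ) : ℂ)) +
        (-1) * (((D.1 0 1 : ℝ) : ℂ) - ((D.1 1 1 : ℝ) : ℂ) * Complex.I)) *
        (2 * (((D.1 0 1 : ℝ) : ℂ) - ((D.1 1 0 : ℝ) : ℂ) + (((D.1 0 0 : ℝ) : ℂ) + ((D.1 1 1 : ℝ) : ℂ)) * Complex.I)) -
        (2 * ((2 + (0 : ℂ)) * (((D.1 0 0 : ℝ) : ℂ) * Complex.I + ((D.1 1 0 : ℝ) : ℂ)) +
        (2 - 0) * (((D.1 0 1 : ℝ) : ℂ) - ((D.1 1 1 : ℝ) : ℂ) * Complex.I))) *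
        (1 * (((D.1 0 0 : ℝ) : ℂ) * Complex.I - ((D.1 1 0 : ℝ) : ℂ)) +
        (-1) * (((D.1 0 1 : ℝ) : ℂ) + ((D.1 1 1 : ℝ) : ℂ) * Complex.I)) = -16 := by
        linear_combination (-16) * hdet + (4 * (((D.1 0 0 : ℝ) : ℂ) + ((D.1 1 1 : ℝ) : ℂ)) ^ 2 - 4 * (((D.1 0 0 : ℝ) : ℂ) - ((D.1 1 1 : ℝ) : ℂ)) ^ 2) * hI2
      rw [e1, e2]
      ring
    rw [h4] at h3
    exact h3
  · unfold PZE_m ze mt
    push_cast
    rw [div_eq_div_iff hd0 hE2]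
    ring

theorem PZE_Ug (U : ℍ → ℝ) (g D : SL(2, ℝ)) (v : ℂ) (hv : ‖v‖ < 2) : VQ.Ug U (g * D) v = VQ.Ug U g (PZE_m D v) := by
  unfold VQ.Ug
  rw [← PZE_act D v hv, PZE_cdi, mul_smul]

theorem PZE_diff (U : ℍ → ℝ) (g : SL(2, ℝ)) (v : ℂ) (hU : QU.CD ∞ U) (hv : ‖v‖ < 2) : DifferentiableAt ℝ (VQ.Ug U g) v := by
  have hden : ∀ w : ℂ, ‖w‖ < 2 → ((g.1 1 0 : ℝ) : ℂ) * (Complex.I * (2 + w) / (2 - w)) + ((g.1 1 1 : ℝ) : ℂ) ≠ 0 := by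
    intro w hw
    rw [← PZE_coe w hw]
    exact PZE_den g _
  have h1 : VQ.Ug U g =ᶠ[𝓝 v] fun w => QU.onC U ((((g.1 0 0 : ℝ) : ℂ) * (Complex.I * (2 + w) / (2 - w)) + ((g.1 0 1 : ℝ) : ℂ)) /
      (((g.1 1 0 : ℝ) : ℂ) * (Complex.I * (2 + w) / (2 - w)) + ((g.1 1 1 : ℝ) : ℂ))) := by
    have h2 : {w : ℂ | ‖w‖ < 2} ∈ 𝓝 v := (isOpen_lt continuous_norm continuous_const).mem_nhds hv
    filter_upwards [h2] with w hw
    unfold VQ.Ug QU.onC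
    rw [← PZE_coe w hw, ← PZE_smul, ofComplex_apply]
  refine DifferentiableAt.congr_of_eventuallyEq ?_ h1
  have h3 : 0 < ((((g.1 0 0 : ℝ) : ℂ) * (Complex.I * (2 + v) / (2 - v)) + ((g.1 0 1 : ℝ) : ℂ)) /
      (((g.1 1 0 : ℝ) : ℂ) * (Complex.I * (2 + v) / (2 - v)) + ((g.1 1 1 : ℝ) : ℂ))).im := by
    rw [← PZE_coe v hv, ← PZE_smul]
    exact (g • VQ.cdi v).im_pos
  have h4 : DifferentiableAt ℝ (QU.onC U) ((((g.1 0 0 : ℝ) : ℂ) * (Complex.I * (2 + v) / (2 - v)) + ((g.1 0 1 : ℝ) : ℂ)) /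
      (((g.1 1 0 : ℝ) : ℂ) * (Complex.I * (2 + v) / (2 - v)) + ((g.1 1 1 : ℝ) : ℂ))) := by
    have h5 : ContDiffAt ℝ ∞ (QU.onC U) _ := hU.contDiffAt ((isOpen_lt continuous_const Complex.continuous_im).mem_nhds h3)
    exact h5.differentiableAt (by simp)
  have h2v := (PZE_im v hv).2
  have h6 : DifferentiableAt ℂ (fun w : ℂ => (((g.1 0 0 : ℝ) : ℂ) * (Complex.I * (2 + w) / (2 - w)) + ((g.1 0 1 : ℝ) : ℂ)) /
      (((g.1 1 0 : ℝ) : ℂ) * (Complex.I * (2 + w) / (2 - w)) + ((g.1 1 1 : ℝ) : ℂ))) v := by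
    have h7 : DifferentiableAt ℂ (fun w : ℂ => Complex.I * (2 + w) / (2 - w)) v :=
      ((differentiableAt_id.const_add 2).const_mul Complex.I).div (differentiableAt_id.const_sub 2) h2v
    exact ((h7.const_mul _).add_const _).div ((h7.const_mul _).add_const _) (hden v hv)
  exact DifferentiableAt.comp (g := QU.onC U) v h4 (h6.restrictScalars ℝ)

theorem PZE_lt (D : SL(2, ℝ)) : ‖ze (mt D)‖ < 2 := by
  rw [← (PZE_one D).1]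
  set z : ℍ := D • I
  have h1 := PZE_zI z
  unfold VQ.cd
  rw [norm_div, norm_mul]
  have h2 : ‖(z : ℂ) - Complex.I‖ < ‖(z : ℂ) + Complex.I‖ := by
    have h3 : ‖(z : ℂ) - Complex.I‖ ^ 2 < ‖(z : ℂ) + Complex.I‖ ^ 2 := by
      rw [← Complex.normSq_eq_norm_sq, ← Complex.normSq_eq_norm_sq, Complex.normSq_apply, Complex.normSq_apply]
      simp only [Complex.sub_re, Complex.sub_im, Complex.add_re, Complex.add_im, Complex.I_re, Complex.I_im]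
      have : 0 < (z : ℂ).im := z.im_pos
      nlinarith
    exact lt_of_pow_lt_pow_left₀ 2 (norm_nonneg _) h3
  rw [div_lt_iff₀ (norm_pos_iff.mpr h1)]
  have : ‖(2 : ℂ)‖ = 2 := by simp
  rw [this]
  linarith

theorem PZE_proof : PZE_stmt := by
  refine ⟨fun D => (PZE_one D).1, fun U g D => ?_, fun U g D hU => ?_⟩
  · unfold VQ.Ug
    rw [← (PZE_one D).1, PZE_cdi, mul_smul]
  · obtain ⟨h1, h2⟩ := PZE_deriv D
    have h3 : VQ.Ug U (g * D) =ᶠ[𝓝 0] fun v => VQ.Ug U g (PZE_m D v) := by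
      have h4 : {w : ℂ | ‖w‖ < 2} ∈ 𝓝 (0 : ℂ) := (isOpen_lt continuous_norm continuous_const).mem_nhds (by simp)
      filter_upwards [h4] with w hw
      exact PZE_Ug U g D w hw
    unfold VQ.n2
    rw [h3.fderiv_eq]
    have h5 : HasFDerivAt (VQ.Ug U g) (fderiv ℝ (VQ.Ug U g) (PZE_m D 0)) (PZE_m D 0) := by
      refine (PZE_diff U g _ hU ?_).hasFDerivAt
      rw [h2]
      exact PZE_lt D
    have h6 := h5.comp (0 : ℂ) (h1.hasFDerivAt.restrictScalars ℝ)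
    have h7 : fderiv ℝ (fun v => VQ.Ug U g (PZE_m D v)) 0 = _ := h6.fderiv
    rw [h7, h2]
    simp [mul_comm]

end Pool.Agent.VQE
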