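import Pool.Agent.helper62.VQ.SpecF

set_option autoImplicit false

open scoped MatrixGroups ContDiff Topology UpperHalfPlane
open UpperHalfPlane MeasureTheory Filter Set

namespace Pool.Agent.VQE

open Pool.Agent.RS

theorem IUA_pot {Γ : Subgroup SL(2, ℝ)} {δ δ' : ℝ} {B : ℕ → ℝ} {U : ℍ → ℝ} (h : δ ≤ δ') (hU : VQ.Pot Γ δ B U) :
    VQ.Pot Γ δ' B U :=
  ⟨hU.smooth, hU.inv, fun g v hv n hn => (hU.near g v hv n hn).trans h, hU.bd⟩

theorem IUA_okd {Γ : Subgroup SL(2, ℝ)} {δ δ' : ℝ} {B : ℕ → ℝ} {D : VQ.Dyn} (h : δ ≤ δ') (hD : VQ.OKD Γ δ B D) :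
    VQ.OKD Γ δ' B D :=
  { hD with pot := IUA_pot h hD.pot }

theorem IUA_uc {C1 : ℝ} {γ : ℝ → SL(2, ℝ)} (h : VQ.UC C1 γ) : UC C1 (1 / 10) γ :=
  ⟨h.cont, fun v v' h0 h1 h2 => (h.cone v v' h0 h1 h2).1, fun v v' h0 h1 h2 => (h.cone v v' h0 h1 h2).2.1,
    fun v v' h0 h1 h2 => (h.cone v v' h0 h1 h2).2.2⟩

theorem IUA_tf (h4 : HLI_stmt) {Γ : Subgroup SL(2, ℝ)} {F : Set ℍ} {h : ℍ → ℝ} (hΓ : QU.SurfaceGroup Γ)
    (hF : QU.NiceDom Γ F) (hh : VQ.TF Γ h) : ∃ L : ℝ, 0 ≤ L ∧ Tf Γ L (fun g => h (g • I)) ∧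
      mnG F (fun g => h (g • I)) = RPQ.mean F h := by
  obtain ⟨L, hL⟩ := hh.lip
  have hL1 : (1 : ℝ) ≤ max L 1 := le_max_right _ _
  have hL0 : (0 : ℝ) < max L 1 := by linarith
  have hk : QU.Inv Γ (fun z => h z / max L 1) :=
    ⟨hh.inv.1.div_const _, fun γ z => by
      show h (γ • z) / max L 1 = h z / max L 1
      rw [hh.inv.2 γ z]⟩
  obtain ⟨hT, hm⟩ := h4 Γ F (fun z => h z / max L 1) hΓ hF hk
    (fun z => ⟨div_nonneg (hh.bd z).1 hL0.le, by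
      rw [div_le_one hL0]
      exact (hh.bd z).2.trans hL1⟩)
    (fun z w => by
      rw [← sub_div, abs_div, abs_of_pos hL0, div_le_iff₀ hL0]
      calc |h z - h w| ≤ L * dist z w := hL z w
        _ ≤ max L 1 * dist z w := mul_le_mul_of_nonneg_right (le_max_left _ _) dist_nonneg
        _ = dist z w * max L 1 := mul_comm _ _)
  refine ⟨8 * max L 1, by positivity, ⟨?_, ?_, ?_, ?_⟩, ?_⟩
  · have h1 : Continuous (fun g : SL(2, ℝ) => h (g • I) / max L 1 * max L 1) := hT.cont.mul continuous_const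
    have h2 : (fun g : SL(2, ℝ) => h (g • I) / max L 1 * max L 1) = fun g : SL(2, ℝ) => h (g • I) := by
      funext g
      exact div_mul_cancel₀ _ hL0.ne'
    rw [h2] at h1
    exact h1
  · intro γ g
    have h1 : h (((γ : SL(2, ℝ)) * g) • I) / max L 1 = h (g • I) / max L 1 := hT.inv γ g
    rw [div_left_inj' hL0.ne'] at h1
    exact h1
  · intro g
    rw [abs_le]
    exact ⟨by linarith [(hh.bd (g • I)).1], (hh.bd (g • I)).2⟩
  · intro g D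
    have h1 : |h ((g * D) • I) / max L 1 - h (g • I) / max L 1| ≤ 8 * nm D := hT.lip g D
    rw [← sub_div, abs_div, abs_of_pos hL0, div_le_iff₀ hL0] at h1
    linarith
  · unfold mnG at hm ⊢
    unfold RPQ.mean
    simp only [div_eq_mul_inv] at hm ⊢
    rw [integral_mul_const, integral_mul_const] at hm
    have h2 : (max L 1)⁻¹ ≠ 0 := inv_ne_zero hL0.ne'
    have h3 : ((∫ g in dG F, h (g • I) ∂mG) * (mG (dG F)).toReal⁻¹) * (max L 1)⁻¹ =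
        ((∫ z in F, h z) * (volume F).toReal⁻¹) * (max L 1)⁻¹ := by
      linarith
    exact mul_right_cancel₀ h2 h3

theorem IUA_proof (h1 : MSR_stmt) (h2 : UWM_stmt) (h3 : CLO_stmt) (h4 : HLI_stmt) (h5 : PFL_stmt) (h6 : PCF_stmt)
    (h7 : FFL_stmt) : IUA_stmt := by
  intro Γ F hΓ hF
  obtain ⟨K, hK1, hPFL⟩ := h5
  obtain ⟨δ1, hδ1, hFFL⟩ := h7 Γ hΓ
  have hK0 : 0 < K := by linarith
  have hKp : 0 < 1 / (10000 * K) := by positivity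
  have hd : 0 < min δ1 (1 / (10000 * K)) := lt_min hδ1 hKp
  have hdK : K * min δ1 (1 / (10000 * K)) ≤ 1 / 10000 := by
    calc K * min δ1 (1 / (10000 * K)) ≤ K * (1 / (10000 * K)) := mul_le_mul_of_nonneg_left (min_le_right _ _) hK0.le
      _ = 1 / 10000 := by field_simp
  have hd1 : min δ1 (1 / (10000 * K)) ≤ 1 / 100 := by
    refine (min_le_right _ _).trans ?_
    rw [div_le_div_iff₀ (by positivity) (by norm_num)]
    linarith
  refine ⟨min δ1 (1 / (10000 * K)), hd, ?_⟩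
  set δ0 := min δ1 (1 / (10000 * K)) with hδ0
  intro C1 hC1 B D h e v0 hD hh he hv0
  obtain ⟨L, hL0, hTf, hmean⟩ := IUA_tf h4 hΓ hF hh
  obtain ⟨hFl, _⟩ := hFFL B D (IUA_okd (min_le_left _ _) hD)
  have hFld := hPFL Γ δ0 B D.U hd.le (by linarith) hD.pot
  have hKd : 0 ≤ K * δ0 := by positivity
  have hM := h1 Γ F (K * δ0) L _ _ _ _ hΓ hF hKd hdK hL0 hFld hFl hTf
  obtain ⟨T1, hT1p, hT1⟩ := h2 Γ F (K * δ0) L _ _ _ _ hΓ hF hKd hdK hL0 hFld hFl hTf hM (e / 2) v0 C1 (by positivity) hv0 hC1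
  have hT0 : (1 : ℕ) ≤ max 1 ⌈T1⌉₊ := le_max_left _ _
  set T0 : ℕ := max 1 ⌈T1⌉₊ with hT0d
  have hT0r : (1 : ℝ) ≤ (T0 : ℝ) := by exact_mod_cast hT0
  have hT1T0 : T1 ≤ (T0 : ℝ) := (Nat.le_ceil T1).trans (by exact_mod_cast le_max_right 1 ⌈T1⌉₊)
  obtain ⟨ε, hε, hC⟩ := h3 L (T0 : ℝ) (e / 2) hL0 (by linarith) (by positivity)
  have hs : 0 < min (ε / 5) (1 / 100) := lt_min (by positivity) (by norm_num)
  refine ⟨T0, min (ε / 5) (1 / 100), min (ε / 5) (1 / 100), hT0, hs, hs, ?_⟩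
  intro D' hD' hcl E γ hE hUC
  obtain ⟨_, hFl'⟩ := hFFL B D' (IUA_okd (min_le_left _ _) hD')
  have hs2 : min (ε / 5) (1 / 100) ≤ 1 / 100 := min_le_right _ _
  have hE1 : |E| ≤ 1 / 100 := hE.trans hs2
  have hP := h6 Γ δ0 (min (ε / 5) (1 / 100)) E B D.U D'.U hd.le hd1 hs.le hs2 hE hD.pot hD'.pot hcl
  have hs5 : 5 * min (ε / 5) (1 / 100) ≤ ε := by
    have := min_le_left (ε / 5) (1 / 100 : ℝ)
    linarith
  have hav := hC Γ (K * δ0) (VQ.rho D.U 0) (fun g => -(VQ.kap D.U 0 g) / 2) (VQ.rho D'.U E)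
    (fun g => -(VQ.kap D'.U E g) / 2) (D.fl 0) (D'.fl E) (fun g => h (g • I)) hKd (by linarith) hFld hFl.toFlw (hFl' E hE1)
    (fun g => (hP g).1.trans hs5) (fun g => (hP g).2.trans hs5) hTf
  refine le_trans (measure_mono ?_) (hT1 (T0 : ℝ) hT1T0 γ (IUA_uc hUC))
  rintro v ⟨hv, hev⟩
  refine ⟨hv, ?_⟩
  have h8 := hav (γ v)
  have h9 : avf (D'.fl E) (fun g => h (g • I)) (T0 : ℝ) (γ v) = VQ.avP D' h (T0 : ℝ) (γ v, E) := rfl
  rw [h9] at h8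
  rw [hmean]
  have h10 : |VQ.avP D' h (T0 : ℝ) (γ v, E) - RPQ.mean F h| ≤
      |VQ.avP D' h (T0 : ℝ) (γ v, E) - avf (D.fl 0) (fun g => h (g • I)) (T0 : ℝ) (γ v)| +
      |avf (D.fl 0) (fun g => h (g • I)) (T0 : ℝ) (γ v) - RPQ.mean F h| := abs_sub_le _ _ _
  linarith

end Pool.Agent.VQE
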