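import Pool.Agent.helper62.VQ.SpecF

set_option autoImplicit false

open scoped MatrixGroups ContDiff Topology UpperHalfPlane
open UpperHalfPlane MeasureTheory Filter Set

namespace Pool.Agent.VQE

open Pool.Agent.RS

/-- left multiplication by a matrix as a linear map -/
noncomputable def PSD_L (E : Fin 2 → Fin 2 → ℝ) : (Fin 2 → Fin 2 → ℝ) →L[ℝ] (Fin 2 → Fin 2 → ℝ) :=
  LinearMap.toContinuousLinearMap
    { toFun := fun M i j => E i 0 * M 0 j + E i 1 * M 1 j
      map_add' := fun M N => by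
        funext i j
        simp only [Pi.add_apply]
        ring
      map_smul' := fun c M => by
        funext i j
        simp only [Pi.smul_apply, smul_eq_mul, RingHom.id_apply]
        ring }

theorem PSD_L_apply (E M : Fin 2 → Fin 2 → ℝ) (i j : Fin 2) : PSD_L E M i j = E i 0 * M 0 j + E i 1 * M 1 j := rfl

theorem PSD_entry (M : Fin 2 → Fin 2 → ℝ) (i j : Fin 2) : |M i j| ≤ ‖M‖ :=
  (norm_le_pi_norm (M i) j).trans (norm_le_pi_norm M i)

theorem PSD_norm_le {M : Fin 2 → Fin 2 → ℝ} {r : ℝ} (hr : 0 ≤ r) (h : ∀ i j, |M i j| ≤ r) : ‖M‖ ≤ r := by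
  rw [pi_norm_le_iff_of_nonneg hr]
  intro i
  rw [pi_norm_le_iff_of_nonneg hr]
  intro j
  exact h i j

theorem PSD_bound (E M : Fin 2 → Fin 2 → ℝ) (r : ℝ) (hr : 0 ≤ r) (hE : ∀ i j, |E i j| ≤ r) : ‖PSD_L E M‖ ≤ 2 * r * ‖M‖ := by
  refine PSD_norm_le (by positivity) fun i j => ?_
  rw [PSD_L_apply]
  have h1 : |E i 0 * M 0 j| ≤ r * ‖M‖ := by
    rw [abs_mul]
    exact mul_le_mul (hE i 0) (PSD_entry M 0 j) (abs_nonneg _) hr
  have h2 : |E i 1 * M 1 j| ≤ r * ‖M‖ := by
    rw [abs_mul]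
    exact mul_le_mul (hE i 1) (PSD_entry M 1 j) (abs_nonneg _) hr
  have h3 := abs_add_le (E i 0 * M 0 j) (E i 1 * M 1 j)
  linarith

theorem PSD_mt (D : SL(2, ℝ)) : ‖mt D - one2‖ ≤ nm D := by
  refine PSD_norm_le ?_ ?_
  · unfold nm
    exact le_max_of_le_left (le_max_of_le_left (abs_nonneg _))
  · intro i j
    have h1 : |D.1 0 0 - 1| ≤ nm D := by unfold nm; exact le_max_of_le_left (le_max_left _ _)
    have h2 : |D.1 0 1| ≤ nm D := by unfold nm; exact le_max_of_le_left (le_max_right _ _)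
    have h3 : |D.1 1 0| ≤ nm D := by unfold nm; exact le_max_of_le_right (le_max_left _ _)
    have h4 : |D.1 1 1 - 1| ≤ nm D := by unfold nm; exact le_max_of_le_right (le_max_right _ _)
    fin_cases i <;> fin_cases j <;> simp [mt, one2] <;> assumption

theorem PSD_mul (E D : SL(2, ℝ)) : mt (E * D) = PSD_L (mt E) (mt D) := by
  funext i j
  rw [PSD_L_apply]
  have h : (E * D).1 = E.1 * D.1 := rfl
  show (E * D).1 i j = _
  rw [h, Matrix.mul_apply, Fin.sum_univ_two]
  rfl

theorem PSD_L_one (M : Fin 2 → Fin 2 → ℝ) : PSD_L one2 M = M := by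
  funext i j
  rw [PSD_L_apply]
  fin_cases i <;> simp [one2]

theorem PSD_L_one' (E : Fin 2 → Fin 2 → ℝ) : PSD_L E one2 = E := by
  funext i j
  rw [PSD_L_apply]
  fin_cases j <;> simp [one2]

theorem PSD_L_sub (E E' M : Fin 2 → Fin 2 → ℝ) : PSD_L (E - E') M = PSD_L E M - PSD_L E' M := by
  funext i j
  simp only [Pi.sub_apply, PSD_L_apply]
  ring

theorem PSD_proof : PSD_stmt := by
  intro A G hA hG D E hD hE
  have hone : one2 ∈ Metric.closedBall one2 (1 / 10 : ℝ) := Metric.mem_closedBall_self (by norm_num)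
  have hnD : 0 ≤ nm D := le_trans (norm_nonneg _) (PSD_mt D)
  have hnE : 0 ≤ nm E := le_trans (norm_nonneg _) (PSD_mt E)
  have hDb : ‖mt D - one2‖ ≤ 1 / 25 := (PSD_mt D).trans hD
  have hEb : ‖mt E - one2‖ ≤ 1 / 25 := (PSD_mt E).trans hE
  have hmem : ∀ M : Fin 2 → Fin 2 → ℝ, ‖M - one2‖ ≤ 1 / 10 → M ∈ Metric.closedBall one2 (1 / 10 : ℝ) := by
    intro M hM
    rw [Metric.mem_closedBall, dist_eq_norm]
    exact hM
  have hn1 : ‖(one2 : Fin 2 → Fin 2 → ℝ)‖ ≤ 1 := by
    refine PSD_norm_le zero_le_one fun i j => ?_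
    unfold one2
    split_ifs <;> simp
  constructor
  · have h1 := (convex_closedBall (one2 : Fin 2 → Fin 2 → ℝ) (1 / 10)).norm_image_sub_le_of_norm_fderiv_le
      (f := G) (C := A) (fun x hx => hG.diff x hx) (fun x hx => hG.b1 x hx) hone (hmem (mt D) (by linarith))
    rw [Real.norm_eq_abs] at h1
    exact h1.trans (mul_le_mul_of_nonneg_left (PSD_mt D) hA)
  · -- the function k
    set s : Set (Fin 2 → Fin 2 → ℝ) := Metric.closedBall one2 (1 / 25) with hs
    have hEdiff : ∀ M : Fin 2 → Fin 2 → ℝ, ‖PSD_L (mt E) M - M‖ ≤ 2 * nm E * ‖M‖ := by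
      intro M
      have h1 : PSD_L (mt E) M - M = PSD_L (mt E - one2) M := by
        rw [PSD_L_sub, PSD_L_one]
      rw [h1]
      exact PSD_bound _ _ _ hnE fun i j => (PSD_entry _ i j).trans (PSD_mt E)
    have hMn : ∀ M ∈ s, ‖M - one2‖ ≤ 1 / 25 ∧ ‖M‖ ≤ 26 / 25 := by
      intro M hM
      rw [hs, Metric.mem_closedBall, dist_eq_norm] at hM
      refine ⟨hM, ?_⟩
      have h1 : ‖M‖ ≤ ‖M - one2‖ + ‖(one2 : Fin 2 → Fin 2 → ℝ)‖ := by
        have := norm_add_le (M - one2) one2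
        rwa [sub_add_cancel] at this
      linarith
    have hEM : ∀ M ∈ s, PSD_L (mt E) M ∈ Metric.closedBall one2 (1 / 10 : ℝ) := by
      intro M hM
      obtain ⟨h1, h2⟩ := hMn M hM
      apply hmem
      have h3 : PSD_L (mt E) M - one2 = (PSD_L (mt E) M - M) + (M - one2) := by abel
      rw [h3]
      have h4 := norm_add_le (PSD_L (mt E) M - M) (M - one2)
      have h5 : ‖PSD_L (mt E) M - M‖ ≤ nm E + 2 * nm E * ‖M - one2‖ := by
        have e1 : PSD_L (mt E) M - M = (mt E - one2) + PSD_L (mt E - one2) (M - one2) := by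
          rw [map_sub, PSD_L_one', PSD_L_sub, PSD_L_one]
          abel
        rw [e1]
        exact (norm_add_le _ _).trans (add_le_add (PSD_mt E)
          (PSD_bound _ _ _ hnE fun i j => (PSD_entry _ i j).trans (PSD_mt E)))
      have h6 : 2 * nm E * ‖M - one2‖ ≤ 2 * (1 / 25) * (1 / 25) := by
        have : 2 * nm E ≤ 2 * (1 / 25) := by linarith
        exact mul_le_mul this h1 (norm_nonneg _) (by norm_num)
      linarith
    have hMs : ∀ M ∈ s, M ∈ Metric.closedBall one2 (1 / 10 : ℝ) := by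
      intro M hM
      exact hmem M (by linarith [(hMn M hM).1])
    have hder : ∀ M ∈ s, HasFDerivAt (fun N => G (PSD_L (mt E) N) - G N)
        ((fderiv ℝ G (PSD_L (mt E) M)).comp (PSD_L (mt E)) - fderiv ℝ G M) M := by
      intro M hM
      exact ((hG.diff _ (hEM M hM)).hasFDerivAt.comp M (PSD_L (mt E)).hasFDerivAt).sub (hG.diff _ (hMs M hM)).hasFDerivAt
    have hbd : ∀ M ∈ s, ‖(fderiv ℝ G (PSD_L (mt E) M)).comp (PSD_L (mt E)) - fderiv ℝ G M‖ ≤ 10 * A * nm E := by
      intro M hM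
      obtain ⟨h1, h2⟩ := hMn M hM
      refine ContinuousLinearMap.opNorm_le_bound _ (by positivity) fun v => ?_
      have e1 : ((fderiv ℝ G (PSD_L (mt E) M)).comp (PSD_L (mt E)) - fderiv ℝ G M) v =
          (fderiv ℝ G (PSD_L (mt E) M)) (PSD_L (mt E) v - v) + (fderiv ℝ G (PSD_L (mt E) M) - fderiv ℝ G M) v := by
        simp only [sub_apply, ContinuousLinearMap.comp_apply, map_sub]
        ring
      rw [e1]
      have h3 : ‖(fderiv ℝ G (PSD_L (mt E) M)) (PSD_L (mt E) v - v)‖ ≤ A * (2 * nm E * ‖v‖) := by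
        refine (ContinuousLinearMap.le_opNorm _ _).trans ?_
        exact mul_le_mul (hG.b1 _ (hEM M hM)) (hEdiff v) (norm_nonneg _) hA
      have h4 : ‖(fderiv ℝ G (PSD_L (mt E) M) - fderiv ℝ G M) v‖ ≤ (A * (2 * nm E * (26 / 25))) * ‖v‖ := by
        refine (ContinuousLinearMap.le_opNorm _ _).trans ?_
        refine mul_le_mul_of_nonneg_right ?_ (norm_nonneg _)
        refine (hG.b2 _ (hEM M hM) _ (hMs M hM)).trans ?_
        refine mul_le_mul_of_nonneg_left ((hEdiff M).trans ?_) hA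
        exact mul_le_mul_of_nonneg_left h2 (by linarith)
      refine (norm_add_le _ _).trans ?_
      have h5 : 0 ≤ A * nm E * ‖v‖ := by positivity
      nlinarith
    have hDs : mt D ∈ s := by
      rw [hs, Metric.mem_closedBall, dist_eq_norm]
      exact hDb
    have h1s : one2 ∈ s := Metric.mem_closedBall_self (by norm_num)
    have h6 := (convex_closedBall (one2 : Fin 2 → Fin 2 → ℝ) (1 / 25)).norm_image_sub_le_of_norm_hasFDerivWithin_le
      (f := fun N => G (PSD_L (mt E) N) - G N) (C := 10 * A * nm E) (fun x hx => (hder x hx).hasFDerivWithinAt)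
      (fun x hx => hbd x hx) h1s hDs
    have h7 : (fun N => G (PSD_L (mt E) N) - G N) (mt D) - (fun N => G (PSD_L (mt E) N) - G N) one2 =
        G (mt (E * D)) - G (mt E) - G (mt D) + G one2 := by
      simp only [PSD_L_one']
      rw [PSD_mul]
      ring
    rw [h7, Real.norm_eq_abs] at h6
    refine h6.trans ?_
    have h8 : 10 * A * nm E * ‖mt D - one2‖ ≤ 10 * A * nm E * nm D := mul_le_mul_of_nonneg_left (PSD_mt D) (by positivity)
    linarith

end Pool.Agent.VQE
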