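import Pool.Agent.helper14.VQE.NMB
import Pool.Agent.helper26.VQE.GRO
import Pool.Agent.helper43.VQE.SML
import Pool.Agent.helper27.VQE.SME
import Pool.Agent.helper61.VQE.UVX
import Pool.Agent.helper31.VQE.UVG
import Pool.Agent.helper33.VQE.LYA
import Pool.Agent.helper33.VQE.DEC
import Pool.Agent.helper33.VQE.GLO
import Pool.Agent.helper65.VQE.SHO
import Pool.Agent.helper44.VQE.SLP
import Pool.Agent.helper68.VQE.STP
import Pool.Agent.helper57.VQE.SYN
import Pool.Agent.helper9.VQE.AVE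
import Pool.Agent.helper69.VQE.REV
import Pool.Agent.helper47.VQE.HAL
import Pool.Agent.helper47.VQE.HAG
import Pool.Agent.helper51.VQE.NULrow
import Pool.Agent.helper96.VQE.NUI
import Pool.Agent.helper44.VQE.NUA
import Pool.Agent.helper34.VQE.FDK
import Pool.Agent.helper27.VQE.ALP
import Pool.Agent.helper89.VQE.VNA
import Pool.Agent.helper94.VQE.RDM
import Pool.Agent.helper87.VQE.VNE
import Pool.Agent.helper27.VQE.LCL
import Pool.Agent.helper59.VQE.LCS
import Pool.Agent.helper78.VQE.HOF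
import Pool.Agent.helper36.VQE.HOC
import Pool.Agent.helper68.VQE.MSR
import Pool.Agent.helper54.VQE.CUR
import Pool.Agent.helper3.VQE.UWM
import Pool.Agent.helper57.VQE.CLO
import Pool.Agent.helper72.VQE.HLI
import Pool.Agent.helper62.VQE.PZE
import Pool.Agent.helper76.VQE.PZC
import Pool.Agent.helper47.VQE.PCA
import Pool.Agent.helper29.VQE.PCI
import Pool.Agent.helper62.VQE.PSD
import Pool.Agent.helper57.VQE.PFB
import Pool.Agent.helper57.VQE.PFL
import Pool.Agent.helper92.VQE.PCF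
import Pool.Agent.helper62.VQE.IUA

/-!
# Project VQ, block 5: assembly (the uniform weak law), from the block FL
-/

set_option autoImplicit false

namespace Pool.Agent.VQE

theorem A_NMB : NMB_stmt := NMB_proof
theorem A_GRO : GRO_stmt := GRO_proof A_NMB
theorem A_SML : SML_stmt := SML_proof A_NMB
theorem A_SME : SME_stmt := SME_proof A_NMB A_GRO
theorem A_UVX : UVX_stmt := UVX_proof A_NMB
theorem A_UVG : UVG_stmt := UVG_proof A_NMB A_UVX
theorem A_SHO : SHO_stmt := SHO_proof A_UVX LYA_proof DEC_proof GLO_proof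
theorem A_SLP : SLP_stmt := SLP_proof A_NMB A_UVX A_UVG A_GRO LYA_proof
theorem A_STP : STP_stmt := STP_proof A_NMB A_SHO A_SLP
theorem A_SYN : SYN_stmt := SYN_proof A_NMB A_UVX
theorem A_AVE : AVE_stmt := AVE_proof A_NMB A_UVX A_SYN
theorem A_REV : REV_stmt := REV_proof A_NMB
theorem A_ALP : ALP_stmt := ALP_proof A_NMB A_STP A_REV
theorem A_NUL : NUL_stmt := NUL_proof A_NMB HAL_proof HAG_proof
theorem A_NUI : NUI_stmt := NUI_proof A_NMB HAL_proof
theorem A_NUA : NUA_stmt := NUA_proof A_NMB HAG_proof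
theorem A_VNE : VNE_stmt := VNE_proof VNA_proof RDM_proof
theorem A_LCL : LCL_stmt := LCL_proof A_NMB A_SML A_STP A_REV
theorem A_LCS : LCS_stmt := LCS_proof A_NMB A_LCL
theorem A_HOF : HOF_stmt := HOF_proof A_NMB A_STP A_AVE A_REV A_NUL A_NUI A_ALP A_LCL A_LCS
theorem A_HOC : HOC_stmt := HOC_proof A_NMB
theorem A_MSR : MSR_stmt := MSR_proof A_VNE A_HOF A_HOC RDM_proof
theorem A_CUR : CUR_stmt := CUR_proof A_NMB A_SML A_SME A_STP
theorem A_UWM : UWM_stmt := UWM_proof A_NMB A_STP A_AVE A_NUA FDK_proof A_CUR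
theorem A_CLO : CLO_stmt := CLO_proof A_NMB
theorem A_HLI : HLI_stmt := HLI_proof A_NMB
theorem A_PFB : PFB_stmt := PFB_proof PZE_proof PZC_proof PCA_proof PCI_proof
theorem A_PFL : PFL_stmt := PFL_proof A_NMB PSD_proof A_PFB
theorem A_PCF : PCF_stmt := PCF_proof A_NMB

/-- the uniform weak law, from the properties of the flow (block FL) -/
theorem IUW_of_FFL (h : FFL_stmt) : VQ.IUW_stmt := IUA_proof A_MSR A_UWM A_CLO A_HLI A_PFL A_PCF h

end Pool.Agent.VQE
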