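import Pool.Agent.helper62.VQE.All
import Pool.Agent.helper80.VQ.AllFL

/-!
# Project VQ, block 5: the uniform weak law
-/

set_option autoImplicit false

namespace Pool.Agent.VQE

/-- the uniform weak law (block 5) -/
theorem IUW_all : VQ.IUW_stmt := IUW_of_FFL F_FFL

end Pool.Agent.VQE
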